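import Mathlib
import Pool.Agent.Helper32.CL.St1
import Pool.Agent.Helper32.CL.St2

/-!
Project CL (MP_b2fa09_gt, closed ancient surfaces), part A: energy identity, area, local density,
diameter, containment, Huisken's monotonicity formula.  Module statements.

For each `StX` the module proves `theorem hX : StX`, taking the listed statements (of this file, of
`Pool/Agent/Helper32/CL/St1.lean` and `St2.lean`, of project PI `Helper35/PI/St*.lean` or of project PI2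
`Helper35/PI2/St.lean`, the last two all proved, see `Helper35/PI2/All.lean`) as hypotheses in the listed
order; others of PI, PI2 may be used too (say so when you post).  Complete proofs are in the docstrings.
Notation: `μ_t = muM 2 F c χ t`, in a chart `f = loc F p t`, `f_i`, `G = (gram f)⁻¹`.

Base statements used: MU (`muM` is finite, integrals of continuous functions), FV
(`∫ (dvg X + ⟨H,X⟩) dμ_t = 0`), TD (`∫ g dμ_t` is continuous in `t`, its derivative is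
`∫ (g' - |H|² g) dμ_t`), FS (`g ≥ 0` continuous with integral `0` vanishes), PR (product rules), SB (small
balls), ML (`wvF`, `i4F`, the fields), MD (jets at every point).
-/

set_option autoImplicit false

namespace Pool.Agent.Helper35.CL

open Helper35.PI Helper35.PI2 Helper32.CL
open scoped ContDiff Manifold Topology ENNReal BigOperators
open MeasureTheory Set Filter

section Defs

variable {N : ℕ} {M : Type}

/-- open extrinsic ball -/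
def bl (F : M → ℝ → EE N) (t : ℝ) (x : EE N) (r : ℝ) : Set M := {q : M | ‖F q t - x‖ < r}

/-- cut-off function `(1 - |F - x|²/r²)₊²` -/
noncomputable def ct (F : M → ℝ → EE N) (x : EE N) (r : ℝ) (t : ℝ) (q : M) : ℝ :=
  (max 0 (1 - ‖F q t - x‖ ^ 2 / r ^ 2)) ^ 2

/-- the field `(h/(|F - x|² + ε²)) (F - x)` -/
noncomputable def fx (F : M → ℝ → EE N) (x : EE N) (r ε : ℝ) (t : ℝ) (q : M) : EE N :=
  (ct F x r t q / (‖F q t - x‖ ^ 2 + ε ^ 2)) • (F q t - x)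

/-- backward heat kernel at the origin, final time `0` -/
noncomputable def gk (F : M → ℝ → EE N) (q : M) (t : ℝ) : ℝ :=
  (4 * Real.pi * (-t))⁻¹ * Real.exp (-‖F q t‖ ^ 2 / (4 * (-t)))

/-- excess over a ball, `(|F - x|² - R²)₊` -/
noncomputable def ex (F : M → ℝ → EE N) (x : EE N) (R : ℝ) (q : M) (t : ℝ) : ℝ :=
  max 0 (‖F q t - x‖ ^ 2 - R ^ 2)

end Defs

/-! ### Continuity -/

/-- CN (hML : StML).  Use ML for any smooth `c`, e.g. `c = cφ (fun _ => 0)`, `κ = 0`.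
`F` is continuous on `M × (-∞,0)` (`IsMCF.smooth`).  `wvF 2 l` is `CST` for each constant `l`, and
`HH = wvF 2 1 - wvF 2 0` (last part of ML), so `HH` is `CST`; `AA` is the first component of `i4F`;
`wvF 2 (l t) F q t = wvF 2 0 F q t + l t • HH`. -/
def StCN : Prop := ∀ (N : ℕ) (M : Type) [TopologicalSpace M] [ChartedSpace (EE 2) M]
    [IsManifold (𝓡 2) ∞ M] (F : M → ℝ → EE N), IsMCF (n := 2) F →
    CST (fun q t => F q t) ∧ CST (fun q t => HH (n := 2) F q t) ∧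
    CST (fun q t => AA (n := 2) F q t) ∧
    ∀ l : ℝ → ℝ, ContinuousOn l (Iio 0) → CST (fun q t => wvF 2 (l t) F q t)

/-! ### Local density -/

/-- LA (hPR : StPR).  The field of Simon's inequality.  `x = F - y`, `s = |x|²`, `m = max 0 (1 - s/r²)`,
`ct = m²`, `fx = ζ(s) x` with `ζ(s) = m²/(s+ε²)` for `s ≥ 0`.  To use PR take the `C¹` function
`ζ s = (max 0 (1 - s/r²))² / (s + ε² + (max 0 (-s))²/ε²)` on `ℝ` (the denominator is positive: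
`ε² - a + a²/ε² > 0` for all `a`; `(max 0 v)²` is `C¹` with derivative `2 max 0 v`); for `s ≥ 0` the last term
of the denominator and its derivative vanish, so `ζ' = -(2/r²) m/(s+ε²) - m²/(s+ε²)²`.
With `ρ` the `r` of PR (`0 ≤ ρ ≤ s`, `⟨H,x⟩² ≤ |H|² (s-ρ)`): `dvg fx = 2ζ + 2ζ'ρ
= m² (2ε²/(s+ε²)² + 2(s-ρ)/(s+ε²)²) - (4/r²) m ρ/(s+ε²)`; the last term is `≥ -4/r²` on `|x| < r`
(`ρ ≤ s + ε²`, `m ≤ 1`) and `0` on `|x| ≥ r` (`m = 0`).  `⟨H,fx⟩ = m²/(s+ε²) ⟨H,x⟩ ≥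
-m² (2(s-ρ)/(s+ε²)² + |H|²/8)` (`ab ≤ 2a² + b²/8`). -/
def StLA : Prop := ∀ (N : ℕ) (M : Type) [TopologicalSpace M] [ChartedSpace (EE 2) M]
    [IsManifold (𝓡 2) ∞ M] (F : M → ℝ → EE N), IsMCF (n := 2) F →
    ∀ (t r ε : ℝ) (y : EE N), t < 0 → 0 < r → 0 < ε →
    ContMDiff (𝓡 2) 𝓘(ℝ, EE N) 1 (fx F y r ε t) ∧ Continuous (ct F y r t) ∧
    (∀ q, 0 ≤ ct F y r t q ∧ ct F y r t q ≤ 1 ∧ (q ∉ bl F t y r → ct F y r t q = 0)) ∧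
    ∀ q, ct F y r t q * (2 * ε ^ 2 / (‖F q t - y‖ ^ 2 + ε ^ 2) ^ 2)
      ≤ dvg (n := 2) F (fx F y r ε t) q t + inner ℝ (HH (n := 2) F q t) (fx F y r ε t q)
        + 1 / 8 * (ct F y r t q * ‖HH (n := 2) F q t‖ ^ 2)
        + 4 / r ^ 2 * indicator (bl F t y r) (1 : M → ℝ) q

/-- LD (hLA : StLA)(hFV : StFV)(hMU : StMU)(hCN : StCN)(hSB : StSB).  Integrate LA (`y = F q₀ t`) over
`M_t` (finite measure, all functions bounded and measurable: integrable); FV kills the first two terms: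
`∫ h 2ε²/(s+ε²)² dμ ≤ (1/8) ∫_{bl} |H|² + (4/r²) μ(bl)` (`h = ct ≤ 1`, `h = 0` outside `bl`).  For
`0 < ε < r`, on `{s ≤ ε²}`: `h ≥ (1 - ε²/r²)²` and `2ε²/(s+ε²)² ≥ 1/(2ε²)`, so the left side is at least
`(1 - ε²/r²)² μ{s ≤ ε²}/(2ε²) ≥ (1 - ε²/r²)²/2` for small `ε` (SB, `U = univ`: `μ{s ≤ ε²} ≥ ε²`).
Let `ε → 0`. -/
def StLD : Prop := ∀ (N : ℕ) (M : Type) [TopologicalSpace M] [T2Space M]
    [CompactSpace M] [MeasurableSpace M] [BorelSpace M]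
    [ChartedSpace (EE 2) M] [IsManifold (𝓡 2) ∞ M] (F : M → ℝ → EE N) (c : ℕ → M)
    (χ : ℕ → M → ℝ), Setup 2 F c χ → ∀ t : ℝ, t < 0 → ∀ (q₀ : M) (r : ℝ), 0 < r →
    1 / 2 ≤ 4 / r ^ 2 * (muM 2 F c χ t).real (bl F t (F q₀ t) r)
      + 1 / 8 * ∫ q in bl F t (F q₀ t) r, ‖HH (n := 2) F q t‖ ^ 2 ∂(muM 2 F c χ t)

/-- DM (hLD : StLD)(hMU : StMU)(hCN : StCN).  Diameter bound, `M` connected.  `D = |F p t - F q t| > 0`
(else trivial), `W = ∫|H|²`, `K = ⌈W/2⌉₊ + 2`, `r = D/(2(K-1))`.  For `j < K` there is `q_j` with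
`|F q_j t - F p t| = 2 r j` (the continuous function `|F · t - F p t|` on the connected `M` takes the
values `0` and `D`).  The balls `bl (F q_j t) r` are disjoint (the centres have distance `≥ 2r`).  Sum LD:
`K/2 ≤ (4/r²) Σ μ(bl_j) + (1/8) Σ ∫_{bl_j}|H|² ≤ (4/r²) μ(M) + W/8`, so
`D² (K/2 - W/8) ≤ 16 (K-1)² μ(M)`; `K - 1 ≤ W/2 + 2`, `K/2 - W/8 ≥ W/8 + 1`, so
`D² ≤ 16 (W/2+2)²/(W/8+1) μ(M) = 32 (W+4)²/(W+8) μ(M) ≤ (32 W + 128) μ(M)`. -/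
def StDM : Prop := ∀ (N : ℕ) (M : Type) [TopologicalSpace M] [T2Space M]
    [CompactSpace M] [ConnectedSpace M] [MeasurableSpace M]
    [BorelSpace M] [ChartedSpace (EE 2) M] [IsManifold (𝓡 2) ∞ M] (F : M → ℝ → EE N)
    (c : ℕ → M) (χ : ℕ → M → ℝ), Setup 2 F c χ → ∀ t : ℝ, t < 0 → ∀ p q : M,
    ‖F p t - F q t‖ ^ 2
      ≤ (32 * (∫ z, ‖HH (n := 2) F z t‖ ^ 2 ∂(muM 2 F c χ t)) + 128)
        * (muM 2 F c χ t).real univ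

/-! ### Energy identity -/

/-- GI.  Gauss equation for surfaces in the form needed.  Proof.  `SymV A`, `n = 2`; expand with
`Fin.sum_univ_two`, `A 1 0 = A 0 1`, inner products `a = A 0 0`, `b = A 0 1`, `d = A 1 1` (bilinearity,
`real_inner_comm`), `ring`.  (Check: `Σ_l ⟨A_kl,A_ml⟩ = ⟨A_km,H⟩ - K δ_km`, `2K = |H|² - |A|²`.) -/
def StGI : Prop := ∀ (N : ℕ) (A : Fin 2 → Fin 2 → EE N), SymV A →
    2 * ZZ A - 2 * AAH A = YY A * (YY A - XX A)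

/-- EN (hMD : StMD)(hML : StML)(hGI : StGI)(hMA : StMA)(hTD : StTD)(hFV : StFV).  The total curvature is
constant.

Proof.  `φ p = p.2.1 - p.1` (linear), `c = cφ φ`, `κ = l = 0`: `g q t = φ (i4F 2 0 F q t) = |H|² - |A|²`; by ML
`g` and its time derivative `g'` are `CST`, and `X₀ = WFd 2 0 0 c F t` is a `C¹` field orthogonal to `H`.  TD:
`d/dt ∫ g dμ_t = ∫ (g' - |H|² g) dμ_t`.  At a point take `A, T` from MD.  `φ` is linear, the `a_i` are `0`,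
`κ = 0`, so `dvA = -hph = -(hY A T - hX A T)` (second derivatives of `φ` vanish) and
`dvg X₀ = g' - (hY - hX)`.  MD with `μ = 1` and `μ = 0` and uniqueness of derivatives:
`dvg (VF 1) - dvg (VF 0) = -(2 hX + 4 eq2 - 4 AAH)`.  As `hY = -2 eq2 + 2 ZZ` (definition of `hY`):
`hY - hX = -2 eq2 + 2 ZZ + (1/2)(dvg (VF 1) - dvg (VF 0)) + 2 eq2 - 2 AAH
= 2 ZZ - 2 AAH + (1/2)(dvg (VF 1) - dvg (VF 0))`, and `2 ZZ - 2 AAH = |H|² g` (GI).  Hence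
`g' - |H|² g = dvg X₀ + (1/2) dvg (VF 1) - (1/2) dvg (VF 0)`, all three `C¹` and orthogonal to `H` (ML, MA), so
each integral is `0` by FV (the functions `dvg ..` are continuous by FV, hence integrable by MU).  A
function on `(-∞,0)` with derivative `0` is constant. -/
def StEN : Prop := ∀ (N : ℕ) (M : Type) [TopologicalSpace M] [T2Space M]
    [CompactSpace M] [MeasurableSpace M] [BorelSpace M]
    [ChartedSpace (EE 2) M] [IsManifold (𝓡 2) ∞ M] (F : M → ℝ → EE N) (c : ℕ → M)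
    (χ : ℕ → M → ℝ), Setup 2 F c χ → ∀ t₁ t₂ : ℝ, t₁ < 0 → t₂ < 0 →
    ∫ q, (‖HH (n := 2) F q t₁‖ ^ 2 - AA (n := 2) F q t₁) ∂(muM 2 F c χ t₁)
      = ∫ q, (‖HH (n := 2) F q t₂‖ ^ 2 - AA (n := 2) F q t₂) ∂(muM 2 F c χ t₂)

/-! ### Area, containment -/

/-- AE (hEN : StEN)(hTD : StTD)(hMU : StMU)(hCN : StCN).  `E = ∫ (|H|² - |A|²) dμ_t` does not depend on `t`
(EN).  Pinching: `(1 - c₀)|H|² ≤ |H|² - |A|²`, so `∫ |H|² ≤ E/(1-c₀) =: W` for all `t < 0`.  Area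
`a(t) = μ_t(M)`: `a' = -∫|H|² ≥ -W` (TD with `g = 1`), so for `t ≤ -1`
`a(t) ≤ a(-1) + W(-1-t) ≤ (a(-1) + W)(-t)` (mean value inequality).  `C = max` of the constants, plus 1. -/
def StAE : Prop := ∀ (N : ℕ) (M : Type) [TopologicalSpace M] [T2Space M]
    [CompactSpace M] [MeasurableSpace M] [BorelSpace M]
    [ChartedSpace (EE 2) M] [IsManifold (𝓡 2) ∞ M] (F : M → ℝ → EE N) (c : ℕ → M)
    (χ : ℕ → M → ℝ), Setup 2 F c χ → ∀ c₀ : ℝ, c₀ < 1 →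
    (∀ (q : M) (t : ℝ), t < 0 → AA (n := 2) F q t ≤ c₀ * ‖HH (n := 2) F q t‖ ^ 2) →
    ∃ C : ℝ, 0 < C ∧ ∀ t ≤ -1, (∫ q, ‖HH (n := 2) F q t‖ ^ 2 ∂(muM 2 F c χ t)) ≤ C ∧
      (muM 2 F c χ t).real univ ≤ C * (-t)

/-- BP (hPR : StPR).  Pointwise facts for the barrier.  `w = ex = (|x|² - R²)₊`, `x = F - y`.
`(max 0 v)³` is differentiable with derivative `3 (max 0 v)²`, and `∂_t |x|² = 2⟨x,H⟩` (`IsMCF.flow`), so `w³`
has the time derivative `6w²⟨x,H⟩`.  `X = w² x = ζ(|x|²) x`, `ζ s = (max 0 (s - R²))²` (`C¹`, `ζ' ≥ 0`); PR: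
`dvg X = 2ζ + 2ζ'ρ ≥ 2w²`, `ρ ≥ 0`.  In particular `0 ≤ dvg X`, and
`6w²⟨x,H⟩ = 6⟨H,X⟩ ≤ 6(dvg X + ⟨H,X⟩)`. -/
def StBP : Prop := ∀ (N : ℕ) (M : Type) [TopologicalSpace M] [ChartedSpace (EE 2) M]
    [IsManifold (𝓡 2) ∞ M] (F : M → ℝ → EE N), IsMCF (n := 2) F → ∀ (y : EE N) (R : ℝ),
    CST (fun q t => ex F y R q t) ∧
    (∀ q, ∀ t < 0, HasDerivAt (fun s => ex F y R q s ^ 3)
      (6 * ex F y R q t ^ 2 * inner ℝ (F q t - y) (HH (n := 2) F q t)) t) ∧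
    ∀ t < 0, ContMDiff (𝓡 2) 𝓘(ℝ, EE N) 1 (fun q => ex F y R q t ^ 2 • (F q t - y)) ∧
      ∀ q, 6 * ex F y R q t ^ 2 * inner ℝ (F q t - y) (HH (n := 2) F q t)
        ≤ 6 * (dvg (n := 2) F (fun q => ex F y R q t ^ 2 • (F q t - y)) q t
          + inner ℝ (HH (n := 2) F q t) (ex F y R q t ^ 2 • (F q t - y)))

/-- BR (hBP : StBP)(hTD : StTD)(hFV : StFV)(hFS : StFS)(hCN : StCN)(hMU : StMU).  Barrier.
`e(t) = ∫ ex³ dμ_t`.  TD, BP, FV: `e' = ∫ (6w²⟨x,H⟩ - |H|² w³) ≤ 6 ∫ (dvg X + ⟨H,X⟩) = 0`, so `e` is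
nonincreasing (`antitoneOn_of_deriv_nonpos` on `[t₁,t₂]`).  `e(t₁) = 0` and `e ≥ 0`, so `e(t₂) = 0`, and FS
gives `ex³ = 0` at time `t₂`. -/
def StBR : Prop := ∀ (N : ℕ) (M : Type) [TopologicalSpace M] [T2Space M]
    [CompactSpace M] [MeasurableSpace M] [BorelSpace M]
    [ChartedSpace (EE 2) M] [IsManifold (𝓡 2) ∞ M] (F : M → ℝ → EE N) (c : ℕ → M)
    (χ : ℕ → M → ℝ), Setup 2 F c χ → ∀ (y : EE N) (R t₁ t₂ : ℝ), 0 ≤ R → t₁ ≤ t₂ → t₂ < 0 →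
    (∀ q, ‖F q t₁ - y‖ ≤ R) → ∀ q, ‖F q t₂ - y‖ ≤ R

/-- CO (hAE : StAE)(hDM : StDM)(hBR : StBR).  Containment.  `t ≤ -1`.  DM and AE:
`|F p t - F q t|² ≤ (32C+128) C (-t) =: B(-t)`.  Fix `q₀` (`M` is nonempty, connected).  BR with
`y = F q₀ t`, `R = √(B(-t))`, from `t` to `-1`: `|F q₀ (-1) - F q₀ t| ≤ √(B(-t))`.  So
`|F q t| ≤ |F q t - F q₀ t| + |F q₀ t - F q₀ (-1)| + |F q₀ (-1)| ≤ (2√B + |F q₀ (-1)|) √(-t)` (`-t ≥ 1`). -/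
def StCO : Prop := ∀ (N : ℕ) (M : Type) [TopologicalSpace M] [T2Space M]
    [CompactSpace M] [ConnectedSpace M] [MeasurableSpace M]
    [BorelSpace M] [ChartedSpace (EE 2) M] [IsManifold (𝓡 2) ∞ M] (F : M → ℝ → EE N)
    (c : ℕ → M) (χ : ℕ → M → ℝ), Setup 2 F c χ → ∀ c₀ : ℝ, c₀ < 1 →
    (∀ (q : M) (t : ℝ), t < 0 → AA (n := 2) F q t ≤ c₀ * ‖HH (n := 2) F q t‖ ^ 2) →
    ∃ R : ℝ, 0 < R ∧ ∀ t ≤ -1, ∀ q, ‖F q t‖ ≤ R * Real.sqrt (-t)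

/-! ### Huisken's monotonicity formula -/

/-- PT (hV6a : StV6a)(hI2 : StI2)(hI3 : StI3)(hI4 : StI4)(hNR : StNR)(hFR : StFR)(hSM : StSM).
The divergence of a radial field about the origin.

Proof.  In the preferred chart at `q`, `f = loc F q t`, everything at `y₀ = chart q q`, `x = f y₀ = F q t`.
`∂_i (ζ(|f|²) f) = 2ζ' ⟨f, f_i⟩ f + ζ f_i`, so `dvg = ζ Σ G_ij g_ij + 2ζ' Σ G_ij ⟨x,f_i⟩⟨x,f_j⟩
= 2ζ + 2ζ' ⟨x, x - nrm f y₀ x⟩`, and `⟨x, x - nrm x⟩ = |x|² - |nrm x|²` (`nrm x` is orthogonal to `x - nrm x`, NR);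
`wvF 2 0 F q t = nrm f y₀ x` by definition (`0 • mcv = 0`).  `F(·,t)` is smooth on `M`, so the field is
`C¹`. -/
def StPT : Prop := ∀ (N : ℕ) (M : Type) [TopologicalSpace M] [ChartedSpace (EE 2) M]
    [IsManifold (𝓡 2) ∞ M] (F : M → ℝ → EE N), IsMCF (n := 2) F → ∀ t < 0,
    ∀ ζ : ℝ → ℝ, ContDiff ℝ 1 ζ →
      ContMDiff (𝓡 2) 𝓘(ℝ, EE N) 1 (fun q => ζ (‖F q t‖ ^ 2) • F q t) ∧
      ∀ q, dvg (n := 2) F (fun q => ζ (‖F q t‖ ^ 2) • F q t) q t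
        = 2 * ζ (‖F q t‖ ^ 2)
          + 2 * deriv ζ (‖F q t‖ ^ 2) * (‖F q t‖ ^ 2 - ‖wvF 2 0 F q t‖ ^ 2)

/-- HP (hPT : StPT)(hML : StML)(hCN : StCN).  Pointwise facts for Huisken's formula.  `τ = -t`, `φ = gk`,
`X = (φ/(2τ)) F = ζ(|F|²) F`, `ζ s = (4πτ)⁻¹ e^{-s/(4τ)}/(2τ)`.  PT: `dvg X = φ/τ - (φ/(4τ²)) (|F|² - |F^⊥|²)`,
`F^⊥ = wvF 2 0 F q t`.  `∂_t φ = dφ := φ (1/τ - |F|²/(4τ²) - ⟨F,H⟩/(2τ))` (`IsMCF.flow`).  With
`W = wvF 2 (-2t) = F^⊥ + 2τH` (ML): `|W|²/(4τ²) = |F^⊥|²/(4τ²) + ⟨F,H⟩/τ + |H|²` (`⟨F^⊥,H⟩ = ⟨F,H⟩`, ML).  Hence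
`∂_tφ - |H|²φ = -φ|W|²/(4τ²) + dvg X + ⟨H,X⟩`.  Continuity: CN. -/
def StHP : Prop := ∀ (N : ℕ) (M : Type) [TopologicalSpace M] [ChartedSpace (EE 2) M]
    [IsManifold (𝓡 2) ∞ M] (F : M → ℝ → EE N), IsMCF (n := 2) F →
    ∃ dφ : M → ℝ → ℝ, CST (fun q t => gk F q t) ∧ CST dφ ∧
    (∀ q, ∀ t < 0, HasDerivAt (gk F q) (dφ q t) t) ∧
    ∀ t < 0, ContMDiff (𝓡 2) 𝓘(ℝ, EE N) 1 (fun q => (gk F q t / (2 * (-t))) • F q t) ∧
      ∀ q, dφ q t - ‖HH (n := 2) F q t‖ ^ 2 * gk F q t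
        = -(gk F q t * (‖wvF 2 (-2 * t) F q t‖ ^ 2 / (4 * t ^ 2)))
          + (dvg (n := 2) F (fun q => (gk F q t / (2 * (-t))) • F q t) q t
            + inner ℝ (HH (n := 2) F q t) ((gk F q t / (2 * (-t))) • F q t))

/-- HU (hHP : StHP)(hTD : StTD)(hFV : StFV)(hAE : StAE)(hCO : StCO)(hCN : StCN)(hMU : StMU).  The
integrated monotonicity formula.
`Θ(t) = ∫ gk dμ_t ≥ 0`.  TD, HP, FV: `Θ' = -∫ gk |W|²/(4t²) dμ_t`, continuous in `t` (TD first part, CN).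
For `t ≤ -1`: `gk ≥ e^{-R²/4}/(4π(-t))` (CO), so `∫|W|² dμ_t/(-t)³ ≤ 16π e^{R²/4} (-Θ'(t))`.  Integrate from
`-T` to `-1` (`intervalIntegral.integral_eq_sub_of_hasDerivAt`, `integral_mono_on`): at most
`16π e^{R²/4} (Θ(-T) - Θ(-1)) ≤ 16π e^{R²/4} Θ(-T)`, and `Θ(-T) ≤ μ(M)/(4πT) ≤ C/(4π)` (AE). -/
def StHU : Prop := ∀ (N : ℕ) (M : Type) [TopologicalSpace M] [T2Space M]
    [CompactSpace M] [ConnectedSpace M] [MeasurableSpace M]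
    [BorelSpace M] [ChartedSpace (EE 2) M] [IsManifold (𝓡 2) ∞ M] (F : M → ℝ → EE N)
    (c : ℕ → M) (χ : ℕ → M → ℝ), Setup 2 F c χ → ∀ c₀ : ℝ, c₀ < 1 →
    (∀ (q : M) (t : ℝ), t < 0 → AA (n := 2) F q t ≤ c₀ * ‖HH (n := 2) F q t‖ ^ 2) →
    ∃ C : ℝ, 0 < C ∧ ContinuousOn (fun t : ℝ =>
      (∫ q, ‖wvF 2 (-2 * t) F q t‖ ^ 2 ∂(muM 2 F c χ t)) / (-t) ^ 3) (Iio 0) ∧
      ∀ T : ℝ, 1 ≤ T → ∫ t in (-T)..(-1),
        (∫ q, ‖wvF 2 (-2 * t) F q t‖ ^ 2 ∂(muM 2 F c χ t)) / (-t) ^ 3 ≤ C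

end Pool.Agent.Helper35.CL
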