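import Pool.Agent.Helper35.PI2.All
import Pool.Agent.Helper35.CL.StA
import Pool.Agent.Helper32.CL.St3
import Pool.Agent.Helper91.CL.M_MU
import Pool.Agent.Helper80.CL.M_TD
import Pool.Agent.Helper29.CL.M_FV
import Pool.Agent.Helper41.CL.M_FS
import Pool.Agent.Helper28.CL.M_DC
import Pool.Agent.Helper48.CL.M_SB
import Pool.Agent.Helper2.CL.M_CR
import Pool.Agent.Helper51.CL.M_WJ
import Pool.Agent.Helper2.CL.M_UJ
import Pool.Agent.Helper52.CL.M_SS
import Pool.Agent.Helper8.CL.M_IV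
import Pool.Agent.Helper30.CL.M_ML
import Pool.Agent.Helper62.CL.M_GC
import Pool.Agent.Helper18.CL.M_MD
import Pool.Agent.Helper91.CL.M_PR
import Pool.Agent.Helper21.CL.M_MR
import Pool.Agent.Helper45.CL.M_MH
import Pool.Agent.Helper26.CL.M_MS
import Pool.Agent.Helper72.CL.M_CN
import Pool.Agent.Helper40.CL.M_LA
import Pool.Agent.Helper60.CL.M_LD
import Pool.Agent.Helper78.CL.M_DM
import Pool.Agent.Helper24.CL.M_GI
import Pool.Agent.Helper82.CL.M_EN
import Pool.Agent.Helper89.CL.M_AE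
import Pool.Agent.Helper82.CL.M_BP
import Pool.Agent.Helper4.CL.M_BR
import Pool.Agent.Helper84.CL.M_CO
import Pool.Agent.Helper69.CL.M_PT
import Pool.Agent.Helper69.CL.M_HP
import Pool.Agent.Helper49.CL.M_HU
import Pool.Agent.Helper23.CA.AS
import Pool.Agent.Helper28.CL.M_AF
import Pool.Agent.Helper9.CL.M_AR
import Pool.Agent.Helper80.CL.M_AC
import Pool.Agent.Helper98.CL.M_AZ
import Pool.Agent.Helper41.CL.M_AI
import Pool.Agent.Helper13.CL.M_SQ
import Pool.Agent.Helper47.CL.M_SE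
import Pool.Agent.Helper92.CL.M_GA
import Pool.Agent.Helper73.CL.M_GJ
import Pool.Agent.Helper79.CL.M_GB
import Pool.Agent.Helper28.CL.M_PS
import Pool.Agent.Helper4.CL.M_EW
import Pool.Agent.Helper40.CL.M_MW
import Pool.Agent.Helper89.CL.M_EV
import Pool.Agent.Helper78.CL.M_OD
import Pool.Agent.Helper42.CL.M_WW
import Pool.Agent.Helper84.CL.M_CI1
import Pool.Agent.Helper98.CL.M_IN
import Pool.Agent.Helper82.CL.M_SQ2
import Pool.Agent.Helper82.CL.M_SG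
import Pool.Agent.Helper30.CL.M_SM
import Pool.Agent.Helper26.CL.M_OB
import Pool.Agent.Helper24.CL.M_RD
import Pool.Agent.Helper32.CL.M_VU

/-!
Project CL (MP_b2fa09_gt): assembly of the modules.
-/

namespace Pool.Agent.Helper35.CL.All

open _root_.Helper35.PI _root_.Helper35.PI.All _root_.Helper35.PI2 _root_.Helper35.PI2.All
open Pool.Agent.Helper35.CL

theorem tMU : Helper32.CL.StMU := Pool.Agent.Helper91.CL.hMU tEB tLT tLL
theorem tTD : Helper32.CL.StTD := Pool.Agent.Helper80.CL.hTD tMU hFU tV1 tEB tI2 tI3 tI4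
theorem tFV : Helper32.CL.StFV := Helper29.CL.hFV tMU tV6 tV6a tSM tI2 tI3 tI4
theorem tFS : Helper32.CL.StFS := Helper41.CL.hFS tMU tEB tI2 tI3 tV1
theorem tDC : Helper32.CL.StDC := Helper28.CL.hDC tMU tTD
theorem tSB : Helper32.CL.StSB := Pool.Agent.Helper48.CL.hSB tMU tV4 tV1 tI2 tI3 tFR
theorem tCR : Helper32.CL.StCR := Pool.Agent.Helper2.CL.hCR
theorem tWJ : Helper32.CL.StWJ := Pool.Agent.Helper51.CL.hWJ tNJ tGH tNR tG0 tG1 tG2 tSM tJA tJB
theorem tUJ : Helper32.CL.StUJ := Pool.Agent.Helper2.CL.hUJ tGH tG0 tG1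
theorem tSS : Helper32.CL.StSS := Pool.Agent.Helper52.CL.hSS tSM tFR tNR
theorem tIV : Helper32.CL.StIV := Pool.Agent.Helper8.CL.hIV tI1 tFR tNR tSM tSS
theorem tML : Helper32.CL.StML := Helper30.CL.hML tSS tIV tI2 tI3 tI4 tNR
theorem tGC : Helper32.CL.StGC := Helper62.CL.hGC tCR tWJ tUJ tG0 tG1 tG2 tG7 tG8 tG9 tGH
theorem tMD : Helper32.CL.StMD := Helper18.CL.hMD tGC tML tIV tSS tWJ tGV tMA tMT tIB tC1 Helper95.PI.hC2 tC3 tSM tI1 tI2 tI3 tG1 tG2 tG7 tG9 tGH tNR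
theorem tPR : Helper32.CL.StPR := Pool.Agent.Helper91.CL.hPR tNR tFR
theorem tMR : Helper32.CL.StMR := Pool.Agent.Helper21.CL.hMR tMU tFV tPR tSB tI4
theorem tMH : Helper32.CL.StMH := Pool.Agent.Helper45.CL.hMH tMU tFV tPR tI4
theorem tMS : Helper32.CL.StMS := Pool.Agent.Helper26.CL.hMS tMU tMR tMH tI4
theorem tCN : StCN := Helper72.CL.hCN tML
theorem tLA : StLA := Pool.Agent.Helper40.CL.hLA tPR
theorem tLD : StLD := Pool.Agent.Helper60.CL.hLD tLA tFV tMU tCN tSB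
theorem tDM : StDM := Helper78.CL.hDM tLD tMU tCN
theorem tGI : StGI := Pool.Agent.Helper24.CL.hGI
theorem tEN : StEN := Helper82.CL.hEN tMD tML tGI tMA tTD tFV tMU
theorem tAE : StAE := Helper89.CL.hAE tEN tTD tMU tCN
theorem tBP : StBP := Helper82.CL.hBP tPR
theorem tBR : StBR := Pool.Agent.Helper4.CL.hBR tBP tTD tFV tFS tCN tMU
theorem tCO : StCO := Pool.Agent.Helper84.CL.hCO tAE tDM tBR
theorem tPT : StPT := Helper69.CL.hPT tV6a tI2 tI3 tI4 tNR tFR tSM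
theorem tHP : StHP := Helper69.CL.hHP tPT tML tCN
theorem tHU : StHU := Helper49.CL.hHU tHP tTD tFV tAE tCO tCN tMU
theorem tAS : Helper32.CL.StAS := Helper23.CA.hAS
theorem tAF : Helper32.CL.StAF := Pool.Agent.Helper28.CL.hAF
theorem tAR : Helper32.CL.StAR := Pool.Agent.Helper9.CL.hAR tAS
theorem tAC : Helper32.CL.StAC := Pool.Agent.Helper80.CL.hAC tAF
theorem tAZ : Helper32.CL.StAZ := Pool.Agent.Helper98.CL.hAZ tAF
theorem tAI : Helper32.CL.StAI := Pool.Agent.Helper41.CL.hAI tAR tAC tAZ tAF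
theorem tSQ : Helper32.CL.StSQ := Pool.Agent.Helper13.CL.hSQ
theorem tSE : Helper32.CL.StSE := Helper47.CL.hSE
theorem tGA : Helper32.CL.StGA := Pool.Agent.Helper92.CL.hGA tMD tML tSQ tCN
theorem tGJ : Helper32.CL.StGJ := Pool.Agent.Helper73.CL.hGJ tMD tSQ
theorem tGB : Helper32.CL.StGB := Pool.Agent.Helper79.CL.hGB tMD tML tSQ tCN
theorem tPS : Helper32.CL.StPS := Pool.Agent.Helper28.CL.hPS tAI tAF tGJ
theorem tEW : Helper32.CL.StEW := Pool.Agent.Helper4.CL.hEW tMU tTD tFV tML tGA tCN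
theorem tMW : Helper32.CL.StMW := Pool.Agent.Helper40.CL.hMW tMU tMS tGA tCN
theorem tEV : Helper32.CL.StEV := Pool.Agent.Helper89.CL.hEV tMU tMW tEW tGA tML tCN
theorem tOD : Helper32.CL.StOD := Pool.Agent.Helper78.CL.hOD
theorem tWW : Helper32.CL.StWW := Pool.Agent.Helper42.CL.hWW tEV tOD tHU tCO tCN tEW tTD tMU tGA
theorem tCI1 : Helper32.CL.StCI1 := Pool.Agent.Helper84.CL.hCI1 tMU tTD tFV tML tGB tAF tMD tCN
theorem tIN : Helper32.CL.StIN := Pool.Agent.Helper98.CL.hIN tMU tTD tDC tPS tCI1 tGB tAF tGA tCN tEW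
theorem tSQ2 : Helper32.CL.StSQ2 := Pool.Agent.Helper82.CL.hSQ2 tMU tIN tWW tAE tCO tGB tAF tTD tCN tMD tSE
theorem tSG : Helper32.CL.StSG := Pool.Agent.Helper82.CL.hSG tMD tML tSE tMA tCN
theorem cSM : Helper32.CL.StSM := Helper30.CL.hSM tMU tTD tFV tMS tSG tMA tML tCN
theorem tOB : Helper32.CL.StOB := Pool.Agent.Helper26.CL.hOB
theorem tRD : Helper32.CL.StRD := Pool.Agent.Helper24.CL.hRD tV5 tSQ2 cSM tOB tFS tSG tMD tFN
theorem tVU : Helper32.CL.StVU := Helper32.CL.hVU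
theorem tFI : Helper32.CL.StFI := Helper32.CL.hFI tRD tVU

end Pool.Agent.Helper35.CL.All
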